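import Mathlib
import Pool.Agent.Work.MP_1a5b88_nt.Values17

/-!
Q1 is false.  For `k = 4` the 2-adic valuation of the coefficient of `x^(16 n + j)` in
`∏ (1 - x^(2^i))^17` is not a function of `ν₂(n+1)` alone: for `n = 31` it equals `18` at `j = 0`
and `19` at `j = 8`.
-/

namespace Pool.Agent.Results.MP_1a5b88_nt.Disproof

open PowerSeries
open scoped PowerSeries.WithPiTopology

theorem result :
    ¬ ∃ A : ℕ → ℕ∞, ∀ n j : ℕ, j < 2 ^ 4 →
      emultiplicity (2 : ℤ)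
        (coeff (2 ^ 4 * n + j)
          ((∏' i : ℕ, (1 - X ^ (2 ^ i)) : PowerSeries ℤ) ^ (2 ^ 4 + 1)))
        = A (padicValNat 2 (n + 1)) := by
  rintro ⟨A, hA⟩
  have h0 := hA 31 0 (by norm_num)
  have h8 := hA 31 8 (by norm_num)
  rw [← h8] at h0
  have e0 : (coeff (2 ^ 4 * 31 + 0)
      ((∏' i : ℕ, (1 - X ^ (2 ^ i)) : PowerSeries ℤ) ^ (2 ^ 4 + 1))) =
      405038508762146334834688 := by
    rw [← Work.MP_1a5b88_nt.v17_496]
    exact (Work.MP_1a5b88_nt.cz_nat (Work.MP_1a5b88_nt.F ^ 17) 496).symm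
  have e8 : (coeff (2 ^ 4 * 31 + 8)
      ((∏' i : ℕ, (1 - X ^ (2 ^ i)) : PowerSeries ℤ) ^ (2 ^ 4 + 1))) =
      -98392455150140920430592 := by
    rw [← Work.MP_1a5b88_nt.v17_504]
    exact (Work.MP_1a5b88_nt.cz_nat (Work.MP_1a5b88_nt.F ^ 17) 504).symm
  rw [e0, e8] at h0
  have m0 : emultiplicity (2 : ℤ) 405038508762146334834688 = (18 : ℕ) := by
    rw [emultiplicity_eq_coe]
    norm_num
  have m8 : emultiplicity (2 : ℤ) (-98392455150140920430592) = (19 : ℕ) := by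
    rw [emultiplicity_eq_coe]
    norm_num
  rw [m0, m8] at h0
  norm_num at h0

end Pool.Agent.Results.MP_1a5b88_nt.Disproof
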