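import Mathlib
import Pool.Agent.Work.MP_1a5b88_nt.Main

/-!
Q2: the two explicit valuation formulas, for `k = 2` (fifth power) and `k = 3` (ninth power).
-/

namespace Pool.Agent.Results.MP_1a5b88_nt.ExplicitCases

open PowerSeries
open scoped PowerSeries.WithPiTopology

theorem result :
    ∀ n : ℕ,
      (∀ j : ℕ, j < 4 →
        emultiplicity (2 : ℤ)
          (coeff (4 * n + j) ((∏' i : ℕ, (1 - X ^ (2 ^ i)) : PowerSeries ℤ) ^ 5)) =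
        ((4 * ⌈(padicValNat 2 (n + 1) : ℚ) / 2⌉₊ - padicValNat 2 (n + 1) % 2 : ℕ) : ℕ∞)) ∧
      (∀ j : ℕ, j < 8 →
        emultiplicity (2 : ℤ)
          (coeff (8 * n + j) ((∏' i : ℕ, (1 - X ^ (2 ^ i)) : PowerSeries ℤ) ^ 9)) =
        ((5 * ⌈(padicValNat 2 (n + 1) : ℚ) / 2⌉₊ - 2 * (padicValNat 2 (n + 1) % 2) : ℕ) : ℕ∞)) := by
  intro n
  obtain ⟨q, hq⟩ := Work.MP_1a5b88_nt.exists_odd_part n
  rw [Work.MP_1a5b88_nt.ceil_half]
  generalize padicValNat 2 (n + 1) = v at hq ⊢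
  have hq' : ((n : ℤ) + 1) = 2 ^ v * (2 * (q : ℤ) + 1) := by exact_mod_cast hq
  constructor
  · intro j hj
    obtain ⟨r, hr⟩ := Work.MP_1a5b88_nt.main5 q v (3 - j) (by omega)
    apply Work.MP_1a5b88_nt.emult
    refine ⟨r, ?_⟩
    change _ = 2 ^ (Work.MP_1a5b88_nt.A5 v) * _
    rw [← hr]
    have : (2 ^ (2 + v) * (2 * (q : ℤ) + 1) - 1 - ((3 - j : ℕ) : ℤ)) = ((4 * n + j : ℕ) : ℤ) := by
      rw [pow_add, mul_assoc, ← hq']
      push_cast [Nat.cast_sub (show j ≤ 3 by omega)]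
      ring
    rw [this]
    exact (Work.MP_1a5b88_nt.cz_nat (Work.MP_1a5b88_nt.F ^ 5) (4 * n + j)).symm
  · intro j hj
    obtain ⟨r, hr⟩ := Work.MP_1a5b88_nt.main9 q v (7 - j) (by omega)
    apply Work.MP_1a5b88_nt.emult
    refine ⟨r, ?_⟩
    change _ = 2 ^ (Work.MP_1a5b88_nt.A9 v) * _
    rw [← hr]
    have : (2 ^ (3 + v) * (2 * (q : ℤ) + 1) - 1 - ((7 - j : ℕ) : ℤ)) = ((8 * n + j : ℕ) : ℤ) := by
      rw [pow_add, mul_assoc, ← hq']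
      push_cast [Nat.cast_sub (show j ≤ 7 by omega)]
      ring
    rw [this]
    exact (Work.MP_1a5b88_nt.cz_nat (Work.MP_1a5b88_nt.F ^ 9) (8 * n + j)).symm

end Pool.Agent.Results.MP_1a5b88_nt.ExplicitCases
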